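import Pool.Graph.R_pool_sql_team_seeded_2aa45f1a.Q5.AP.Dist
import Pool.Graph.R_pool_sql_team_seeded_2aa45f1a.Q5.AP.Two

/-!
# The joint limiting distribution of finitely many almost periodic functions
-/

set_option autoImplicit false

open MeasureTheory Filter Topology Set Complex
open Pool.Agent.TH270.MS (BM)
open Pool.Agent.Q5.AP

namespace Pool.Agent.Helper86.JL

variable {ι : Type} [Fintype ι]

theorem par_zero : Par (fun _ => (((0 : ℝ)) : ℂ)) (fun _ => 0) 0 where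
  loc T hT := by simp
  ms := by
    have : (MR fun _ => ‖(((0 : ℝ)) : ℂ)‖ ^ 2) = fun _ => 0 := by
      funext T
      unfold MR
      simp
    rw [this]
    exact tendsto_const_nhds
  co t := by
    have : (M fun u => (((0 : ℝ)) : ℂ) * exp (-(t * I * u))) = fun _ => 0 := by
      funext T
      unfold M
      simp
    rw [this]
    exact tendsto_const_nhds
  pa := by simp

/-- linear combinations -/
theorem par_sum {g : ι → ℝ → ℝ} {a : ι → ℝ → ℂ} {V : ι → ℝ}
    (h : ∀ i, Par (fun u => (g i u : ℂ)) (a i) (V i)) (c : ι → ℝ) (s : Finset ι) :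
    ∃ Vc : ℝ, Par (fun u => ((∑ i ∈ s, c i * g i u : ℝ) : ℂ))
      (fun t => ∑ i ∈ s, (c i : ℂ) * a i t) Vc := by
  classical
  induction s using Finset.induction_on with
  | empty =>
    refine ⟨0, ?_⟩
    simpa using par_zero
  | insert i s hi ih =>
    obtain ⟨Vc, hc⟩ := ih
    have h1 := ((h i).smul_real (c i)).add hc
    have e1 : (fun u => ((∑ i ∈ insert i s, c i * g i u : ℝ) : ℂ)) =
        fun u => ((c i * g i u : ℝ) : ℂ) + ((∑ i ∈ s, c i * g i u : ℝ) : ℂ) := by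
      funext u
      rw [Finset.sum_insert hi, Complex.ofReal_add]
    have e2 : (fun t => ∑ i ∈ insert i s, (c i : ℂ) * a i t) =
        fun t => (c i : ℂ) * a i t + ∑ i ∈ s, (c i : ℂ) * a i t := by
      funext t
      rw [Finset.sum_insert hi]
    rw [e1, e2]
    exact ⟨_, h1⟩

/-- the mean square of a linear combination -/
theorem par_comb {g : ι → ℝ → ℝ} {a : ι → ℝ → ℂ} {V : ι → ℝ}
    (h : ∀ i, Par (fun u => (g i u : ℂ)) (a i) (V i)) (c : ι → ℝ) :
    ∃ Vc : ℝ, Par (fun u => ((∑ i, c i * g i u : ℝ) : ℂ))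
      (fun t => ∑ i, (c i : ℂ) * a i t) Vc ∧ Vc ≤ (∑ i, c i ^ 2) * ∑ i, V i := by
  obtain ⟨Vc, hc⟩ := par_sum h c Finset.univ
  refine ⟨Vc, hc, ?_⟩
  have h1 : HasSum (fun t => (∑ i, c i ^ 2) * ∑ i, ‖a i t‖ ^ 2) ((∑ i, c i ^ 2) * ∑ i, V i) :=
    (hasSum_sum fun i _ => (h i).pa).mul_left _
  refine hasSum_le (fun t => ?_) hc.pa h1
  have h2 : ‖∑ i, (c i : ℂ) * a i t‖ ≤ ∑ i, |c i| * ‖a i t‖ := by
    refine (norm_sum_le _ _).trans (le_of_eq ?_)
    refine Finset.sum_congr rfl fun i _ => ?_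
    rw [norm_mul, Complex.norm_real, Real.norm_eq_abs]
  have h3 := Finset.sum_mul_sq_le_sq_mul_sq Finset.univ (fun i => |c i|) (fun i => ‖a i t‖)
  have h4 : ‖∑ i, (c i : ℂ) * a i t‖ ^ 2 ≤ (∑ i, |c i| * ‖a i t‖) ^ 2 :=
    pow_le_pow_left₀ (norm_nonneg _) h2 2
  refine h4.trans (h3.trans (le_of_eq ?_))
  simp only [sq_abs]

/-- the vector-valued function -/
noncomputable def vec (g : ι → ℝ → ℝ) (u : ℝ) : EuclideanSpace ℝ ι := WithLp.toLp 2 fun i => g i u

omit [Fintype ι] in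
theorem vec_meas {g : ι → ℝ → ℝ} (hg : ∀ i, Measurable (g i)) : Measurable (vec g) := by
  unfold vec
  exact (WithLp.measurable_toLp 2 _).comp (measurable_pi_lambda _ hg)

theorem inner_vec (g : ι → ℝ → ℝ) (u : ℝ) (ξ : EuclideanSpace ℝ ι) :
    inner ℝ (vec g u) ξ = ∑ i, ξ i * g i u := by
  unfold vec
  rw [PiLp.inner_apply]
  refine Finset.sum_congr rfl fun i _ => ?_
  simp

theorem charFun_vec {g : ι → ℝ → ℝ} (hg : ∀ i, Measurable (g i)) (ξ : EuclideanSpace ℝ ι) {T : ℝ}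
    (hT : 0 < T) : charFun (law (vec g) T) ξ = M (fun u => exp (((∑ i, ξ i * g i u : ℝ) : ℂ) * I)) T := by
  have hφ : Continuous fun x : EuclideanSpace ℝ ι => exp ((inner ℝ x ξ : ℝ) * I) := by fun_prop
  rw [charFun_apply, law_integral (vec_meas hg) hφ.stronglyMeasurable hT]
  unfold M
  rw [Complex.real_smul]
  simp only [inner_vec]
  push_cast
  ring

variable {g : ι → ℝ → ℝ} {a : ι → ℝ → ℂ} {V : ι → ℝ}

/-- **The joint limiting distribution exists.** -/
theorem joint_exists (h : ∀ i, Par (fun u => (g i u : ℂ)) (a i) (V i)) (hg : ∀ i, Measurable (g i)) :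
    ∃ ν : ProbabilityMeasure (EuclideanSpace ℝ ι), Tendsto (lawP (vec_meas hg)) atTop (𝓝 ν) := by
  have h1 : ∀ ξ : EuclideanSpace ℝ ι, ∃ z : ℂ, Tendsto (M fun u =>
      exp (((∑ i, ξ i * g i u : ℝ) : ℂ) * I)) atTop (𝓝 z) := fun ξ => by
    obtain ⟨Vc, hc, -⟩ := par_comb h fun i => ξ i
    exact hc.exp_mean
  choose Φ hΦ using h1
  have hlim : ∀ ξ, Tendsto (fun T : ℝ => charFun (law (vec g) T) ξ) atTop (𝓝 (Φ ξ)) := by
    intro ξ
    refine (hΦ ξ).congr' ?_
    filter_upwards [eventually_gt_atTop 0] with T hT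
    exact (charFun_vec hg ξ hT).symm
  set C : ℝ := ∑ i, V i with hC
  have hC0 : 0 ≤ C := Finset.sum_nonneg fun i _ => (h i).nonneg
  have hnear : ∀ ξ : EuclideanSpace ℝ ι, ξ ≠ 0 → ‖Φ ξ - 1‖ ≤ ‖ξ‖ * ((C + 1) / 2) := by
    intro ξ hξ
    have hx : 0 < ‖ξ‖ := norm_pos_iff.2 hξ
    obtain ⟨Vc, hc, hle⟩ := par_comb h fun i => ξ i
    have e1 : ∑ i, (ξ i) ^ 2 = ‖ξ‖ ^ 2 := by
      rw [EuclideanSpace.norm_sq_eq]
      simp
    rw [e1] at hle
    refine (hc.exp_near (hΦ ξ) (s := ‖ξ‖⁻¹) (by positivity)).trans ?_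
    rw [inv_inv]
    have h2 : ‖ξ‖⁻¹ * Vc ≤ ‖ξ‖ * C := by
      rw [inv_mul_le_iff₀ hx]
      refine hle.trans (le_of_eq ?_)
      ring
    have e2 : ‖ξ‖ * ((C + 1) / 2) = (‖ξ‖ * C + ‖ξ‖) / 2 := by ring
    rw [e2]
    linarith
  have hone : Φ 0 = 1 := by
    have h2 := hΦ 0
    refine tendsto_nhds_unique h2 (tendsto_const_nhds.congr' ?_)
    filter_upwards [eventually_gt_atTop 0] with T hT
    unfold M
    have hTc : (T : ℂ) ≠ 0 := by exact_mod_cast hT.ne'
    simp only [PiLp.zero_apply, zero_mul, Finset.sum_const_zero, Complex.ofReal_zero, Complex.exp_zero]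
    rw [intervalIntegral.integral_const, sub_zero, Complex.real_smul, mul_one, div_self hTc]
  have hc : ContinuousAt Φ 0 := by
    rw [ContinuousAt, hone, tendsto_iff_norm_sub_tendsto_zero]
    have h3 : Tendsto (fun ξ : EuclideanSpace ℝ ι => ‖ξ‖ * ((C + 1) / 2)) (𝓝 0) (𝓝 0) := by
      have : Continuous fun ξ : EuclideanSpace ℝ ι => ‖ξ‖ * ((C + 1) / 2) := by fun_prop
      simpa using this.tendsto 0
    refine squeeze_zero (fun ξ => norm_nonneg _) (fun ξ => ?_) h3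
    by_cases hξ : ξ = 0
    · rw [hξ, hone]
      simp
    · exact hnear ξ hξ
  obtain ⟨ν, -, hν⟩ := law_tendsto (vec_meas hg) hc hlim
  exact ⟨ν, hν⟩

/-- bounded measurable functions of the vector -/
theorem law_vec (hg : ∀ i, Measurable (g i)) {φ : EuclideanSpace ℝ ι → ℝ} (hφ : Measurable φ) {T : ℝ}
    (hT : 0 < T) : ∫ x, φ x ∂(law (vec g) T) = MR (fun u => φ (vec g u)) T := by
  rw [law_integral (vec_meas hg) hφ.stronglyMeasurable hT]
  unfold MR
  rw [smul_eq_mul]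
  ring

/-- linear functionals -/
noncomputable def lin (c : ι → ℝ) (y : EuclideanSpace ℝ ι) : ℝ := ∑ i, c i * y i

theorem lin_cont (c : ι → ℝ) : Continuous (lin c) := by
  unfold lin
  fun_prop

theorem comb_meas (hg : ∀ i, Measurable (g i)) (c : ι → ℝ) : Measurable fun u => ∑ i, c i * g i u :=
  Finset.measurable_sum _ fun i _ => (hg i).const_mul (c i)

theorem lin_tendsto (hg : ∀ i, Measurable (g i)) {ν : ProbabilityMeasure (EuclideanSpace ℝ ι)}
    (hν : Tendsto (lawP (vec_meas hg)) atTop (𝓝 ν)) (c : ι → ℝ) :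
    Tendsto (lawP (comb_meas hg c)) atTop (𝓝 (ν.map (lin_cont c).measurable.aemeasurable)) := by
  have h1 := ProbabilityMeasure.tendsto_map_of_tendsto_of_continuous _ ν hν (lin_cont c)
  refine h1.congr fun T => ?_
  refine Subtype.ext ?_
  show Measure.map (lin c) (law (vec g) T) = law (fun u => ∑ i, c i * g i u) T
  unfold law
  have h2 : Measurable fun x : ℝ => vec g (T * x) := (vec_meas hg).comp (measurable_const_mul T)
  rw [Measure.map_map (lin_cont c).measurable h2]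
  rfl

/-- the moments of linear functionals -/
theorem lin_moments (h : ∀ i, Par (fun u => (g i u : ℂ)) (a i) (V i)) (hg : ∀ i, Measurable (g i))
    {ν : ProbabilityMeasure (EuclideanSpace ℝ ι)} (hν : Tendsto (lawP (vec_meas hg)) atTop (𝓝 ν))
    (c : ι → ℝ) :
    Integrable (fun y => lin c y ^ 2) (ν : Measure (EuclideanSpace ℝ ι)) ∧
    HasSum (fun t => ‖∑ i, (c i : ℂ) * a i t‖ ^ 2) (∫ y, lin c y ^ 2 ∂(ν : Measure (EuclideanSpace ℝ ι))) ∧
    ∫ y, lin c y ∂(ν : Measure (EuclideanSpace ℝ ι)) = (∑ i, (c i : ℂ) * a i 0).re := by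
  obtain ⟨Vc, hc, -⟩ := par_comb h c
  have h1 := lin_tendsto hg hν c
  obtain ⟨h2, h3⟩ := hc.second (comb_meas hg c) h1
  have h4 := hc.first (comb_meas hg c) h1
  have hm := (lin_cont c).measurable.aemeasurable (μ := (ν : Measure (EuclideanSpace ℝ ι)))
  have e : ((ν.map (lin_cont c).measurable.aemeasurable : ProbabilityMeasure ℝ) : Measure ℝ) =
      Measure.map (lin c) (ν : Measure (EuclideanSpace ℝ ι)) := rfl
  rw [e] at h2 h3 h4
  rw [integral_map hm (by fun_prop)] at h3 h4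
  rw [integrable_map_measure (by fun_prop) hm] at h2
  refine ⟨h2, ?_, h4⟩
  rw [h3]
  exact hc.pa

end Pool.Agent.Helper86.JL
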