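import Pool.Agent.Helper86.JL.Joint

/-!
# The joint limiting distribution: the statement with the means over `[e, X]`
-/

set_option autoImplicit false

open MeasureTheory Filter Topology Set Complex
open Pool.Agent.TH270.MS (BM)
open Pool.Agent.Q5.OM (mn mn_cov)
open Pool.Agent.Q5.AP

namespace Pool.Agent.Helper86.JL

variable {ι : Type} [Fintype ι] {W : ι → ℝ → ℝ}

/-- the logarithmic mean of `ψ` over `[e, X]` -/
noncomputable def lmean (ψ : ℝ → ℝ) (X : ℝ) : ℝ := (∫ x in Real.exp 1..X, ψ x / x) / Real.log X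

theorem cut_vec_aem (hW : ∀ i, BM (W i)) : AEMeasurable (fun u => fun i => cut (W i) u) volume :=
  aemeasurable_pi_lambda _ fun i => (cut_meas (hW i)).aemeasurable

/-- bounded functions of the vector -/
theorem means_vec {φ : (ι → ℝ) → ℝ} (hW : ∀ i, BM (W i)) (hφ : Measurable φ) {B : ℝ}
    (hB : ∀ x, |φ x| ≤ B) {L : ℝ}
    (h : Tendsto (MR fun u => φ fun i => cut (W i) u) atTop (𝓝 L)) :
    Tendsto (lmean fun x => φ fun i => W i x) atTop (𝓝 L) := by
  have hint : ∀ T : ℝ, 0 < T → IntervalIntegrable (fun u => φ fun i => cut (W i) u) volume 0 T := by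
    intro T hT
    rw [intervalIntegrable_iff_integrableOn_Ioc_of_le hT.le]
    have hm : AEStronglyMeasurable (fun u => φ fun i => cut (W i) u) volume :=
      (hφ.comp_aemeasurable (cut_vec_aem hW)).aestronglyMeasurable
    exact Integrable.mono' (g := fun _ => B) (integrableOn_const (by simp)) hm.restrict
      (Eventually.of_forall fun u => hB _)
  unfold MR at h
  rw [Pool.Agent.Q5.BP.mean_from_one_real hint] at h
  have h6 := h.comp Real.tendsto_log_atTop
  refine h6.congr' ?_
  filter_upwards [eventually_ge_atTop (Real.exp 1)] with X hX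
  have hX0 : 0 < X := (Real.exp_pos 1).trans_le hX
  have hl : 1 ≤ Real.log X := Pool.Agent.TH270.MS.one_le_log hX
  have e := mn_cov (fun y => φ fun i => W i y) hl
  rw [Real.exp_log hX0] at e
  unfold lmean
  rw [e, Function.comp_apply]
  unfold mn
  congr 1
  refine intervalIntegral.integral_congr_ae (Eventually.of_forall fun u hu => ?_)
  rw [uIoc_of_le hl] at hu
  simp only [cut_of _ hu.1]

/-- **The joint limiting distribution.** -/
theorem joint_law {m : ι → ℝ → ℕ} {V : ι → ℝ} (hW : ∀ i, BM (W i))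
    (P : ∀ i, Par (fun u => (cut (W i) u : ℂ)) (cm (m i)) (V i)) :
    ∃ ν : Measure (ι → ℝ), IsProbabilityMeasure ν ∧
      (∀ φ : (ι → ℝ) → ℝ, Continuous φ → (∃ B : ℝ, ∀ y, |φ y| ≤ B) →
        Tendsto (lmean fun x => φ fun i => W i x) atTop (𝓝 (∫ y, φ y ∂ν))) ∧
      (∀ C : Set (ι → ℝ), MeasurableSet C → ν (frontier C) = 0 →
        Tendsto (lmean fun x => C.indicator (fun _ => (1 : ℝ)) fun i => W i x) atTop
          (𝓝 (ν.real C))) ∧
      (∀ i, Integrable (fun y : ι → ℝ => y i) ν ∧ ∫ y, y i ∂ν = 0) ∧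
      (∀ i j, Integrable (fun y : ι → ℝ => y i * y j) ν ∧
        HasSum (fun t : ℝ => (m i t : ℝ) * m j t / t ^ 2) (∫ y, y i * y j ∂ν)) ∧
      ∀ c : ι → ℝ, (∀ᵐ y ∂ν, ∑ i, c i * y i = 0) ↔ ∀ t : ℝ, t ≠ 0 → ∑ i, c i * (m i t : ℝ) = 0 := by
  classical
  -- measurable modifications
  have hm : ∀ i, AEMeasurable (cut (W i)) volume := fun i => (cut_meas (hW i)).aemeasurable
  set g : ι → ℝ → ℝ := fun i => (hm i).mk (cut (W i)) with hg
  have hgm : ∀ i, Measurable (g i) := fun i => (hm i).measurable_mk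
  have hae : ∀ i, cut (W i) =ᵐ[volume] g i := fun i => (hm i).ae_eq_mk
  have hae' : ∀ᵐ u : ℝ ∂volume, ∀ i, cut (W i) u = g i u := by
    rw [ae_all_iff]
    exact hae
  have hP : ∀ i, Par (fun u => (g i u : ℂ)) (cm (m i)) (V i) := fun i => (P i).congr_ae (by
    filter_upwards [hae i] with u hu
    rw [hu])
  obtain ⟨ν, hν⟩ := joint_exists hP hgm
  let e : EuclideanSpace ℝ ι ≃ₜ (ι → ℝ) := PiLp.homeomorph 2 fun _ : ι => ℝ
  have hem : Measurable e := e.continuous.measurable
  have heq : ∀ y : EuclideanSpace ℝ ι, ∀ i, e y i = y i := fun y i => rfl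
  let ν' : Measure (ι → ℝ) := Measure.map e (ν : Measure (EuclideanSpace ℝ ι))
  have hpr : IsProbabilityMeasure (ν : Measure (EuclideanSpace ℝ ι)) := ν.2
  have hpr' : IsProbabilityMeasure ν' := Measure.isProbabilityMeasure_map hem.aemeasurable
  have hlin : ∀ c : ι → ℝ, ∀ y : EuclideanSpace ℝ ι, lin c y = ∑ i, c i * e y i := fun c y => rfl
  -- the second moments of linear functionals
  have hmom : ∀ c : ι → ℝ, Integrable (fun y : ι → ℝ => (∑ i, c i * y i) ^ 2) ν' ∧
      HasSum (fun t : ℝ => (∑ i, c i * (m i t : ℝ)) ^ 2 / t ^ 2) (∫ y, (∑ i, c i * y i) ^ 2 ∂ν') ∧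
      ∫ y, ∑ i, c i * y i ∂ν' = 0 := by
    intro c
    obtain ⟨h1, h2, h3⟩ := lin_moments hP hgm hν c
    have hcont : Continuous fun y : ι → ℝ => ∑ i, c i * y i := by fun_prop
    have hcont2 : Continuous fun y : ι → ℝ => (∑ i, c i * y i) ^ 2 := by fun_prop
    refine ⟨?_, ?_, ?_⟩
    · show Integrable _ (Measure.map e (ν : Measure (EuclideanSpace ℝ ι)))
      rw [integrable_map_measure hcont2.aestronglyMeasurable hem.aemeasurable]
      exact h1
    · rw [integral_map hem.aemeasurable hcont2.aestronglyMeasurable]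
      have e1 : (fun t : ℝ => ‖∑ i, (c i : ℂ) * cm (m i) t‖ ^ 2) =
          fun t : ℝ => (∑ i, c i * (m i t : ℝ)) ^ 2 / t ^ 2 := by
        funext t
        have e2 : ∑ i, (c i : ℂ) * cm (m i) t = -(((∑ i, c i * (m i t : ℝ) : ℝ) : ℂ) * I / t) := by
          unfold cm
          push_cast
          rw [Finset.sum_mul, Finset.sum_div, ← Finset.sum_neg_distrib]
          refine Finset.sum_congr rfl fun i _ => ?_
          ring
        rw [e2, norm_neg, norm_div, norm_mul, Complex.norm_I, mul_one, Complex.norm_real,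
          Complex.norm_real, div_pow, Real.norm_eq_abs, Real.norm_eq_abs, sq_abs, sq_abs]
      rw [e1] at h2
      exact h2
    · rw [integral_map hem.aemeasurable hcont.aestronglyMeasurable]
      have e1 : (∑ i, (c i : ℂ) * cm (m i) 0).re = 0 := by
        simp [cm_zero]
      rw [e1] at h3
      exact h3
  have hsingle : ∀ (i : ι) (y : ι → ℝ), ∑ j, (Pi.single i (1 : ℝ) : ι → ℝ) j * y j = y i := by
    intro i y
    simp [Pi.single_apply]
  have hsq : ∀ i, Integrable (fun y : ι → ℝ => y i ^ 2) ν' ∧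
      HasSum (fun t : ℝ => (m i t : ℝ) ^ 2 / t ^ 2) (∫ y, y i ^ 2 ∂ν') ∧ ∫ y, y i ∂ν' = 0 := by
    intro i
    have h1 := hmom (Pi.single i 1)
    simp only [hsingle] at h1
    obtain ⟨h2, h3, h4⟩ := h1
    refine ⟨h2, ?_, h4⟩
    simpa only [hsingle i fun j => (m j _ : ℝ)] using h3
  refine ⟨ν', hpr', ?_, ?_, ?_, ?_, ?_⟩
  · rintro φ hφ ⟨B, hB⟩
    refine means_vec hW hφ.measurable hB ?_
    have h1 := (ProbabilityMeasure.tendsto_iff_forall_integral_tendsto.1 hν)
      (BoundedContinuousFunction.ofNormedAddCommGroup (fun y => φ (e y)) (hφ.comp e.continuous) B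
        fun y => hB _)
    rw [integral_map hem.aemeasurable hφ.aestronglyMeasurable]
    refine h1.congr' ?_
    filter_upwards [eventually_gt_atTop 0] with T hT
    have h2 := law_vec hgm (hφ.comp e.continuous).measurable hT
    refine Eq.trans h2 ?_
    refine MR_congr ?_ T
    filter_upwards [hae'] with u hu
    rw [Function.comp_apply]
    congr 1
    funext i
    exact (hu i).symm
  · intro C hC hfr
    have hB : ∀ y : ι → ℝ, |C.indicator (fun _ => (1 : ℝ)) y| ≤ 1 := by
      intro y
      by_cases h : y ∈ C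
      · rw [indicator_of_mem h]
        simp
      · rw [indicator_of_notMem h]
        simp
    refine means_vec hW (measurable_const.indicator hC) hB ?_
    have hC' : MeasurableSet (e ⁻¹' C) := hem hC
    have hfr' : ((ν : ProbabilityMeasure (EuclideanSpace ℝ ι)) : Measure (EuclideanSpace ℝ ι))
        (frontier (e ⁻¹' C)) = 0 := by
      rw [← e.preimage_frontier]
      have h1 := Measure.map_apply hem (isClosed_frontier (s := C)).measurableSet
        (μ := (ν : Measure (EuclideanSpace ℝ ι)))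
      rw [← h1]
      exact hfr
    have h3 := ProbabilityMeasure.tendsto_measure_of_null_frontier_of_tendsto' hν hfr'
    have h4 : Tendsto (fun T => (((lawP (vec_meas hgm) T : ProbabilityMeasure _) :
        Measure (EuclideanSpace ℝ ι))).real (e ⁻¹' C)) atTop (𝓝 (ν'.real C)) := by
      have h5 : ν'.real C = ((ν : Measure (EuclideanSpace ℝ ι))).real (e ⁻¹' C) := by
        unfold Measure.real
        rw [Measure.map_apply hem hC]
      rw [h5]
      exact (ENNReal.tendsto_toReal (measure_ne_top _ _)).comp h3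
    refine h4.congr' ?_
    filter_upwards [eventually_gt_atTop 0] with T hT
    have h2 := law_vec hgm ((measurable_const (a := (1 : ℝ))).indicator hC') hT
    rw [integral_indicator_const _ hC', smul_eq_mul, mul_one] at h2
    refine Eq.trans h2 ?_
    refine MR_congr ?_ T
    filter_upwards [hae'] with u hu
    have e3 : e (vec g u) = fun i => cut (W i) u := by
      funext i
      exact (hu i).symm
    show (e ⁻¹' C).indicator (fun _ => (1 : ℝ)) (vec g u) = _
    rw [← e3]
    rfl
  · intro i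
    obtain ⟨h1, h2, h3⟩ := hsq i
    have h4 : MemLp (fun y : ι → ℝ => y i) 2 ν' :=
      (memLp_two_iff_integrable_sq (continuous_apply i).aestronglyMeasurable).2 h1
    exact ⟨h4.integrable (by norm_num), h3⟩
  · intro i j
    obtain ⟨h1, h2, -⟩ := hsq i
    obtain ⟨h3, h4, -⟩ := hsq j
    have h5 := hmom (Pi.single i 1 + Pi.single j 1)
    have e1 : ∀ y : ι → ℝ, ∑ k, (Pi.single i (1 : ℝ) + Pi.single j (1 : ℝ) : ι → ℝ) k * y k =
        y i + y j := by
      intro y
      simp only [Pi.add_apply, add_mul, Finset.sum_add_distrib, hsingle]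
    simp only [e1] at h5
    obtain ⟨h6, h7, -⟩ := h5
    have e2 : (fun y : ι → ℝ => y i * y j) = fun y => ((y i + y j) ^ 2 - y i ^ 2 - y j ^ 2) / 2 := by
      funext y
      ring
    have h8 : Integrable (fun y : ι → ℝ => ((y i + y j) ^ 2 - y i ^ 2 - y j ^ 2) / 2) ν' :=
      ((h6.sub h1).sub h3).div_const 2
    refine ⟨by rw [e2]; exact h8, ?_⟩
    have e3 := integral_sub (h6.sub h1) h3
    have e4 := integral_sub h6 h1
    simp only [Pi.sub_apply] at e3
    rw [e2, integral_div, e3, e4]
    refine (((h7.sub h2).sub h4).div_const 2).congr_fun ?_ |> fun h => h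
    intro t
    ring
  · intro c
    obtain ⟨h1, h2, -⟩ := hmom c
    have h0 : 0 ≤ᵐ[ν'] fun y : ι → ℝ => (∑ i, c i * y i) ^ 2 :=
      Eventually.of_forall fun y => sq_nonneg _
    have h3 : (∀ᵐ y ∂ν', ∑ i, c i * y i = 0) ↔ ∫ y, (∑ i, c i * y i) ^ 2 ∂ν' = 0 := by
      rw [integral_eq_zero_iff_of_nonneg_ae h0 h1]
      constructor
      · intro h
        filter_upwards [h] with y hy
        rw [hy]
        simp
      · intro h
        filter_upwards [h] with y hy
        exact pow_eq_zero_iff (two_ne_zero) |>.1 hy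
    rw [h3]
    have h4 : (∫ y, (∑ i, c i * y i) ^ 2 ∂ν' = 0) ↔
        ∀ t : ℝ, (∑ i, c i * (m i t : ℝ)) ^ 2 / t ^ 2 = 0 := by
      constructor
      · intro h
        rw [h] at h2
        have h5 := (hasSum_zero_iff_of_nonneg (fun t : ℝ => by positivity)).1 h2
        exact fun t => congrFun h5 t
      · intro h
        simp only [h] at h2
        exact h2.unique hasSum_zero
    rw [h4]
    refine forall_congr' fun t => ?_
    by_cases ht : t = 0
    · simp [ht]
    · have ht2 : t ^ 2 ≠ 0 := pow_ne_zero 2 ht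
      rw [div_eq_zero_iff, or_iff_left ht2, pow_eq_zero_iff two_ne_zero]
      exact ⟨fun h _ => h, fun h => h ht⟩

end Pool.Agent.Helper86.JL
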